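import Pool.Agent.Lib.MP_e26f2a_co.BG.Final

set_option autoImplicit false

namespace Pool.Agent.Results.MP_e26f2a_co.ChromaticIndex

/-- The odd graph `O_k`: its vertices are the `(k-1)`-subsets of a `(2k-1)`-set, two vertices are
adjacent exactly when they are different and disjoint. -/
def oddGraph (k : ℕ) : SimpleGraph {s : Finset (Fin (2 * k - 1)) // s.card = k - 1} :=
  SimpleGraph.fromRel fun s t => Disjoint s.1 t.1

theorem adj_iff {k : ℕ} (s t : {s : Finset (Fin (2 * k - 1)) // s.card = k - 1}) :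
    (oddGraph k).Adj s t ↔ s ≠ t ∧ Disjoint s.1 t.1 := by
  unfold oddGraph
  rw [SimpleGraph.fromRel_adj]
  constructor
  · rintro ⟨h1, h2 | h2⟩
    · exact ⟨h1, h2⟩
    · exact ⟨h1, h2.symm⟩
  · rintro ⟨h1, h2⟩
    exact ⟨h1, Or.inl h2⟩

theorem colorable {k : ℕ} (h : BG.Col k) : (oddGraph k).lineGraph.Colorable k := by
  obtain ⟨c, c1, c2⟩ := h
  have key : ∀ (e : (oddGraph k).edgeSet) (v : {s : Finset (Fin (2 * k - 1)) // s.card = k - 1}),
      v ∈ e.1 → ∃ w, (oddGraph k).Adj v w ∧ e.1 = s(v, w) ∧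
        c (Quot.out e.1).1.1 (Quot.out e.1).2.1 = c v.1 w.1 := by
    intro e v hv
    have h0 : e.1 = s((Quot.out e.1).1, (Quot.out e.1).2) := by
      exact (Quot.out_eq e.1).symm
    have ha : (oddGraph k).Adj (Quot.out e.1).1 (Quot.out e.1).2 := by
      have := e.2
      rw [h0] at this
      exact this
    have hv' : v = (Quot.out e.1).1 ∨ v = (Quot.out e.1).2 := by
      rw [h0] at hv
      exact Sym2.mem_iff.1 hv
    rcases hv' with hv' | hv'
    · refine ⟨(Quot.out e.1).2, ?_, ?_, ?_⟩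
      · rw [hv']; exact ha
      · rw [hv']; exact h0
      · rw [hv']
    · refine ⟨(Quot.out e.1).1, ?_, ?_, ?_⟩
      · rw [hv']; exact ha.symm
      · rw [hv', Sym2.eq_swap]; exact h0
      · rw [hv']
        exact c1 _ _ (Quot.out e.1).1.2 (Quot.out e.1).2.2 ((adj_iff _ _).1 ha).2
  refine ⟨SimpleGraph.Coloring.mk
    (fun e => c (Quot.out e.1).1.1 (Quot.out e.1).2.1) ?_⟩
  intro e f hef
  rw [SimpleGraph.lineGraph_adj_iff_exists] at hef
  obtain ⟨hne, v, hve, hvf⟩ := hef
  obtain ⟨w, hw, ew, cw⟩ := key e v hve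
  obtain ⟨u, hu, eu, cu⟩ := key f v hvf
  rw [cw, cu]
  refine c2 v.1 w.1 u.1 v.2 w.2 u.2 ((adj_iff _ _).1 hw).2 ((adj_iff _ _).1 hu).2 ?_
  intro hwu
  apply hne
  apply Subtype.ext
  rw [ew, eu, Subtype.ext hwu]

theorem lower (k : ℕ) (hk : 2 ≤ k) : (k : ℕ∞) ≤ (oddGraph k).lineGraph.chromaticNumber := by
  rw [SimpleGraph.le_chromaticNumber_iff_coloring]
  intro m C
  obtain ⟨S, -, hS⟩ := Finset.exists_subset_card_eq
    (show k - 1 ≤ (Finset.univ : Finset (Fin (2 * k - 1))).card by simp; omega)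
  have hSc : Sᶜ.card = k := by rw [Finset.card_compl, Fintype.card_fin, hS]; omega
  have hne : S.Nonempty := by rw [← Finset.card_pos, hS]; omega
  let v : {s : Finset (Fin (2 * k - 1)) // s.card = k - 1} := ⟨S, hS⟩
  let w : (Sᶜ : Finset _) → {s : Finset (Fin (2 * k - 1)) // s.card = k - 1} := fun x =>
    ⟨Sᶜ.erase x.1, by rw [Finset.card_erase_of_mem x.2, hSc]⟩
  have hd : ∀ x, Disjoint v.1 (w x).1 := by
    intro x
    rw [Finset.disjoint_left]
    intro y hy hy'
    exact (Finset.mem_compl.1 (Finset.mem_of_mem_erase hy')) hy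
  have hvw : ∀ x, (oddGraph k).Adj v (w x) := by
    intro x
    rw [adj_iff]
    refine ⟨?_, hd x⟩
    intro h
    obtain ⟨y, hy⟩ := hne
    have h1 := hd x
    rw [← h] at h1
    exact Finset.disjoint_left.1 h1 hy hy
  let e : (Sᶜ : Finset _) → (oddGraph k).edgeSet := fun x => ⟨s(v, w x), hvw x⟩
  have hinj : Function.Injective fun x => C (e x) := by
    intro x y hxy
    by_contra hne'
    apply C.valid _ hxy
    rw [SimpleGraph.lineGraph_adj_iff_exists]
    refine ⟨?_, v, Sym2.mem_mk_left _ _, Sym2.mem_mk_left _ _⟩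
    intro he
    have h1 : s(v, w x) = s(v, w y) := congrArg Subtype.val he
    have h2 : w x = w y := Sym2.congr_right.1 h1
    have h3 : Sᶜ.erase x.1 = Sᶜ.erase y.1 := congrArg Subtype.val h2
    apply hne'
    apply Subtype.ext
    exact (Finset.erase_inj _ x.2).1 h3
  have := Fintype.card_le_of_injective _ hinj
  rw [Fintype.card_coe, hSc, Fintype.card_fin] at this
  exact this

/-- **Biggs' conjecture (1972).** For every `k ≥ 2` with `k ≠ 3` and `k` not a power of two, the
chromatic index of the odd graph `O_k` (the chromatic number of its line graph) is `k`. -/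
theorem result : ∀ k : ℕ, 2 ≤ k → k ≠ 3 → (¬ ∃ n : ℕ, k = 2 ^ n) →
    (oddGraph k).lineGraph.chromaticNumber = k := by
  intro k h2 h3 hp
  exact le_antisymm (colorable (BG.biggs k h2 h3 hp)).chromaticNumber_le (lower k h2)

end Pool.Agent.Results.MP_e26f2a_co.ChromaticIndex
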